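import Mathlib
import Pool.Agent.Helper98.TInst

/-!
Counterexample for the class of groups in which every infinite subset contains two distinct
elements `x, y` such that `x` and its conjugate by `y` generate a subgroup with a normal
subgroup of exponent dividing `m` and nilpotent quotient.
-/

namespace Pool.Agent.Results.MP_e0c8e7_al.Counterexample

/-- A class of groups (of types in the lowest universe). -/
abbrev GroupClass := (G : Type) → [Group G] → Prop

/-- The class of finite groups. -/
def FinCl : GroupClass := fun G _ => Finite G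

/-- The class of nilpotent groups. -/
def NilCl : GroupClass := fun G _ => Group.IsNilpotent G

/-- The class of groups of exponent dividing `m`. -/
def ExpCl (m : ℕ) : GroupClass := fun G _ => ∀ g : G, g ^ m = 1

/-- The product of two classes: a normal subgroup in the first class whose quotient lies in
the second class. -/
def MulCl (X Y : GroupClass) : GroupClass := fun G _ =>
  ∃ (K : Subgroup G) (_ : K.Normal), X K ∧ Y (G ⧸ K)

/-- The class of groups `G` such that every infinite subset `S` of `G` contains elements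
`x ≠ y` for which the subgroup generated by `x` and `y⁻¹ x y` lies in `X`. -/
def StarCl (X : GroupClass) : GroupClass := fun G _ =>
  ∀ S : Set G, S.Infinite → ∃ x ∈ S, ∃ y ∈ S, x ≠ y ∧
    X (Subgroup.closure ({x, y⁻¹ * x * y} : Set G))

open Pool.Agent.Helper98 in
/-- There is a finitely generated soluble group which for every `m` congruent to 2 mod 4 lies in
the class `StarCl (MulCl (ExpCl m) NilCl)` but not in `MulCl (ExpCl m) (MulCl FinCl NilCl)`. -/
theorem result : ∃ (G : Type) (_ : Group G), Group.FG G ∧ Group.IsSolvable G ∧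
    ∀ m : ℕ, m % 4 = 2 →
      StarCl (MulCl (ExpCl m) NilCl) G ∧ ¬ MulCl (ExpCl m) (MulCl FinCl NilCl) G := by
  refine ⟨Inst.G, inferInstance, Inst.G_fg, Inst.G_solvable, fun m hm => ⟨?_, ?_⟩⟩
  · intro S hS
    obtain ⟨x, hx, y, hy, hxy⟩ := hS.nontrivial
    refine ⟨x, hx, y, hy, hxy, ?_⟩
    have hq : (y⁻¹ * x * y).q = x.q := by
      simp only [TGp.mul_q, TGp.inv_q]
      rw [mul_comm y.q⁻¹ x.q, inv_mul_cancel_right]
    obtain ⟨k, hk⟩ := Inst.Phi_line
      ((x⁻¹ * (y⁻¹ * x * y)).v * Inst.D.bar (x⁻¹ * (y⁻¹ * x * y)).v) x.q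
    obtain ⟨K, hKn, hK2, hKnil⟩ := TGp.main_pos x (y⁻¹ * x * y) hq k (hk k le_rfl)
    refine ⟨K, hKn, ?_, hKnil⟩
    intro g
    have e : m = 2 * (m / 2) := by omega
    rw [e, pow_mul, hK2 g, one_pow]
  · rintro ⟨L, hLn, hL, F, hFn, hFfin, hFnil⟩
    have : Finite F := hFfin
    obtain ⟨N, hN, hper⟩ := TGp.main_neg (D := Inst.D) Inst.t1 m hm Inst.span_T L
      (fun g hg => by simpa using congrArg Subtype.val (hL ⟨g, hg⟩)) F hFnil
    obtain ⟨g, hg⟩ := Inst.ph_not_periodic N hN
    apply hg
    have := hper (Inst.D.T g)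
    rw [mul_sub, mul_one, ← map_mul, TGp.Phi_sub, Inst.Phi_T, Inst.Phi_T] at this
    exact sub_eq_zero.mp this

end Pool.Agent.Results.MP_e0c8e7_al.Counterexample
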